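import Pool.Agent.H23.Boot3

open Pool.Agent.H23.Boot3

theorem Pool.Agent.Results.MP_fc3ed9_co.Grid23.result (n : ℕ) :
    3 * M n ≤ 2 * n ^ 2 ∧ 2 * n ^ 2 ≤ 3 * M n + 72 * n := main n
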